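import Pool.Agent.Helper28.HT.Basic
import Pool.Agent.Helper28.HT.Defs

/-!
# The subalgebra of `H^*(X, O_X)` generated by degrees one and two is a derived invariant
-/

set_option autoImplicit false

namespace Pool.Agent.Hodge81

open Complex Module

namespace HodgeRing

variable {n : ℕ} {A : Type*} [Ring A] [Algebra ℂ A] (X : HodgeRing n A)

/-- the component in `H p q` -/
noncomputable def proj (p q : ℕ) : A →ₗ[ℂ] A :=
  (DirectSum.toModule ℂ (ℕ × ℕ) A
      (fun x => if x = (p, q) then (X.H x.1 x.2).subtype else 0)) ∘ₗ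
    (LinearEquiv.ofBijective (DirectSum.coeLinearMap (fun x : ℕ × ℕ => X.H x.1 x.2))
      X.internal).symm.toLinearMap

theorem proj_of_mem (p q : ℕ) {p' q' : ℕ} {a : A} (ha : a ∈ X.H p' q') :
    X.proj p q a = if (p', q') = (p, q) then a else 0 := by
  have h1 : (LinearEquiv.ofBijective (DirectSum.coeLinearMap (fun x : ℕ × ℕ => X.H x.1 x.2))
      X.internal).symm a = DirectSum.lof ℂ (ℕ × ℕ) (fun x => X.H x.1 x.2) (p', q') ⟨a, ha⟩ := by
    rw [LinearEquiv.symm_apply_eq]
    simp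
  rw [proj, LinearMap.comp_apply, LinearEquiv.coe_coe, h1, DirectSum.toModule_lof]
  split_ifs
  · rfl
  · rfl

/-- the subalgebra generated by `H^{0,1}` and `H^{0,2}` -/
def lowAlg : Subalgebra ℂ A := Algebra.adjoin ℂ ((X.H 0 1 : Set A) ∪ (X.H 0 2 : Set A))

/-- its part in `H^{0,q}` -/
def lowPart (q : ℕ) : Submodule ℂ A := Subalgebra.toSubmodule X.lowAlg ⊓ X.H 0 q

/-- products of generators -/
inductive Word : ℕ → A → Prop
  | one : Word 0 1
  | mul (k l : ℕ) (x w : A) : k = 1 ∨ k = 2 → x ∈ X.H 0 k → Word l w → Word (k + l) (x * w)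

theorem word_mem {l : ℕ} {w : A} (h : X.Word l w) : w ∈ X.H 0 l := by
  induction h with
  | one => exact X.one_mem
  | mul k l x w _ hx _ ih =>
    have := X.mul_mem 0 k 0 l x w hx ih
    rwa [zero_add] at this

theorem word_low {l : ℕ} {w : A} (h : X.Word l w) : w ∈ X.lowAlg := by
  induction h with
  | one => exact X.lowAlg.one_mem
  | mul k l x w hk hx _ ih =>
    refine X.lowAlg.mul_mem (Algebra.subset_adjoin ?_) ih
    rcases hk with rfl | rfl
    · exact Or.inl hx
    · exact Or.inr hx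

theorem exists_word {w : A}
    (h : w ∈ Submonoid.closure ((X.H 0 1 : Set A) ∪ (X.H 0 2 : Set A))) : ∃ l, X.Word l w := by
  induction h using Submonoid.closure_induction_left with
  | one => exact ⟨0, Word.one⟩
  | mul_left x hx y _ ih =>
    obtain ⟨l, hl⟩ := ih
    rcases hx with hx | hx
    · exact ⟨_, Word.mul 1 l x y (Or.inl rfl) hx hl⟩
    · exact ⟨_, Word.mul 2 l x y (Or.inr rfl) hx hl⟩

theorem lowPart_eq (q : ℕ) : X.lowPart q = Submodule.span ℂ {w | X.Word q w} := by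
  apply le_antisymm
  · rintro a ⟨h1, h2⟩
    have h3 : X.proj 0 q a = a := by rw [X.proj_of_mem 0 q h2, if_pos rfl]
    have h4 : Subalgebra.toSubmodule X.lowAlg ≤
        (Submodule.span ℂ {w | X.Word q w}).comap (X.proj 0 q) := by
      rw [lowAlg, Algebra.adjoin_eq_span, Submodule.span_le]
      intro w hw
      obtain ⟨l, hl⟩ := X.exists_word hw
      change X.proj 0 q w ∈ Submodule.span ℂ {w | X.Word q w}
      rw [X.proj_of_mem 0 q (X.word_mem hl)]
      by_cases hlq : l = q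
      · subst hlq
        rw [if_pos rfl]
        exact Submodule.subset_span hl
      · rw [if_neg (by
          intro h
          exact hlq (Prod.ext_iff.1 h).2)]
        exact Submodule.zero_mem _
    have h5 : X.proj 0 q a ∈ Submodule.span ℂ {w | X.Word q w} := h4 h1
    rwa [h3] at h5
  · rw [Submodule.span_le]
    intro w hw
    exact ⟨X.word_low hw, X.word_mem hw⟩

end HodgeRing

/-! ### the action on `exp (i omega)` -/

section eval

variable {n : ℕ} {A B : Type*} [Ring A] [Algebra ℂ A] [Ring B] [Algebra ℂ B]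
  {X : HodgeRing n A} {Y : HodgeRing n B}

theorem IsHochschildIso.symm {P : PolyvectorAction X} {Q : PolyvectorAction Y} {phi : A ≃ₗ[ℂ] B}
    (h : IsHochschildIso P Q phi) : IsHochschildIso Q P phi.symm where
  conj b := by
    rw [LinearEquiv.symm_apply_eq, h.conj, LinearEquiv.apply_symm_apply]
  total k f := by
    rw [h.total]
    have e : phi.toLinearMap ∘ₗ (phi.symm.toLinearMap ∘ₗ f ∘ₗ phi.symm.symm.toLinearMap) ∘ₗ
        phi.symm.toLinearMap = f := by
      ext b
      simp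
    rw [e]

theorem IsMukaiIsometry.symm {phi : A ≃ₗ[ℂ] B} (h : IsMukaiIsometry X Y phi) :
    IsMukaiIsometry Y X phi.symm where
  conj b := by
    rw [LinearEquiv.symm_apply_eq, h.conj, LinearEquiv.apply_symm_apply]
  column i := by
    rw [← h.column i, ← Submodule.map_comp]
    have e : phi.symm.toLinearMap ∘ₗ phi.toLinearMap = LinearMap.id := by
      ext a
      simp
    rw [e, Submodule.map_id]
  mukai v w := by
    rw [← h.mukai, LinearEquiv.apply_symm_apply, LinearEquiv.apply_symm_apply]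

/-- the kernel lemma in degree one -/
def KerOne (P : PolyvectorAction X) : Prop :=
  ∀ f ∈ P.total 1, (∀ v, f (X.conj (f (X.conj v))) = -X.conj (f (X.conj (f v)))) →
    f (X.expo I) = 0 → f = 0

/-- the kernel lemma in degree two -/
def KerTwo (P : PolyvectorAction X) : Prop :=
  ∀ f ∈ P.total 2, (∀ v, f (X.conj (f (X.conj v))) = X.conj (f (X.conj (f v)))) →
    f (X.expo I) = 0 → f = 0

/-- evaluation at the exponential -/
def Eval (P : PolyvectorAction X) : Prop :=
  ∀ k f, f ∈ P.total k → ∃ x ∈ X.H 0 k, f (X.expo I) = x * X.expo I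

/-- the evaluation map `H^*(Y, O_Y) → H^*(X, O_X)` -/
noncomputable def evalE (X : HodgeRing n A) (phi : A ≃ₗ[ℂ] B) : B →ₗ[ℂ] A :=
  (LinearMap.mulRight ℂ (X.expo (-I))) ∘ₗ phi.symm.toLinearMap ∘ₗ
    (LinearMap.mulRight ℂ (phi (X.expo I)))

theorem evalE_apply (phi : A ≃ₗ[ℂ] B) (y : B) :
    evalE X phi y = phi.symm (y * phi (X.expo I)) * X.expo (-I) := rfl

/-- transport of a multiplication operator -/
noncomputable def tr (phi : A ≃ₗ[ℂ] B) (y : B) : Module.End ℂ A :=
  phi.symm.toLinearMap ∘ₗ LinearMap.mulLeft ℂ y ∘ₗ phi.toLinearMap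

theorem tr_apply (phi : A ≃ₗ[ℂ] B) (y : B) (v : A) : tr phi y v = phi.symm (y * phi v) := rfl

variable {P : PolyvectorAction X} {Q : PolyvectorAction Y} {phi : A ≃ₗ[ℂ] B}

theorem tr_mem (h : IsHochschildIso P Q phi) {k : ℕ} {y : B} (hy : y ∈ Y.H 0 k) :
    tr phi y ∈ P.total k := by
  rw [h.total]
  have e : phi.toLinearMap ∘ₗ tr phi y ∘ₗ phi.symm.toLinearMap = LinearMap.mulLeft ℂ y := by
    ext b
    simp [tr]
  rw [e]
  have h1 : LinearMap.mulLeft ℂ y ∈ Q.T k 0 := (Q.functions k _).2 ⟨y, hy, rfl⟩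
  exact le_iSup₂ (f := fun (x : ℕ × ℕ) (_ : x.1 + x.2 = k) => Q.T x.1 x.2) (k, 0) (by simp) h1

theorem total_comm {k l : ℕ} {f : Module.End ℂ A} (hf : f ∈ P.total k) {x : A}
    (hx : x ∈ X.H 0 l) (v : A) : f (x * v) = (-1 : ℂ) ^ (k * l) • (x * f v) := by
  have h1 : P.total k ≤ LinearMap.ker (LinearMap.mulRight ℂ (LinearMap.mulLeft ℂ x : Module.End ℂ A)
      - (-1 : ℂ) ^ (k * l) • LinearMap.mulLeft ℂ (LinearMap.mulLeft ℂ x : Module.End ℂ A)) := by
    refine iSup₂_le fun z hz => ?_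
    intro g hg
    have h2 := P.comm z.1 z.2 l 0 g (LinearMap.mulLeft ℂ x) hg ((P.functions l _).2 ⟨x, hx, rfl⟩)
    rw [LinearMap.mem_ker]
    simp only [LinearMap.sub_apply, LinearMap.smul_apply, LinearMap.mulRight_apply,
      LinearMap.mulLeft_apply]
    rw [h2, hz, add_zero, sub_self]
  have h3 := h1 hf
  rw [LinearMap.mem_ker] at h3
  simp only [LinearMap.sub_apply, LinearMap.smul_apply, LinearMap.mulRight_apply,
    LinearMap.mulLeft_apply] at h3
  have h4 := LinearMap.congr_fun (sub_eq_zero.1 h3) v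
  exact h4

theorem expo_cancel (x : A) : x * X.expo I * X.expo (-I) = x := by
  rw [mul_assoc, X.expo_mul, add_neg_cancel, X.expo_zero, mul_one]

theorem evalE_spec (h : IsHochschildIso P Q phi) (hE : Eval P) {k : ℕ} {y : B}
    (hy : y ∈ Y.H 0 k) :
    evalE X phi y ∈ X.H 0 k ∧ y * phi (X.expo I) = phi (evalE X phi y * X.expo I) := by
  obtain ⟨x, hx, he⟩ := hE k (tr phi y) (tr_mem h hy)
  rw [tr_apply] at he
  have h1 : evalE X phi y = x := by
    rw [evalE_apply, he, expo_cancel]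
  rw [h1]
  refine ⟨hx, ?_⟩
  rw [← he, LinearEquiv.apply_symm_apply]

theorem evalE_eq {x : A} {y : B} (h : y * phi (X.expo I) = phi (x * X.expo I)) :
    evalE X phi y = x := by
  rw [evalE_apply, h, LinearEquiv.symm_apply_apply, expo_cancel]

theorem evalE_one : evalE X phi 1 = 1 := evalE_eq (by rw [one_mul, one_mul])

theorem evalE_mul (h : IsHochschildIso P Q phi) (hE : Eval P) {k l : ℕ} {y y' : B}
    (hy : y ∈ Y.H 0 k) (hy' : y' ∈ Y.H 0 l) :
    evalE X phi (y * y') = evalE X phi y * evalE X phi y' := by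
  obtain ⟨h1, h2⟩ := evalE_spec h hE hy
  obtain ⟨h3, h4⟩ := evalE_spec h hE hy'
  apply evalE_eq
  have h5 := total_comm (tr_mem h hy) h3 (X.expo I)
  rw [tr_apply, tr_apply, h2, LinearEquiv.symm_apply_apply] at h5
  have h6 := X.comm 0 l 0 k _ _ h3 h1
  rw [← mul_assoc, h6, smul_mul_assoc, smul_smul, zero_add, zero_add, mul_comm k l,
    ← pow_add, ← two_mul, pow_mul, neg_one_sq, one_pow, one_smul] at h5
  rw [mul_assoc, h4, ← h5, LinearEquiv.apply_symm_apply]

theorem conj_symm (hc : ∀ a, phi (X.conj a) = Y.conj (phi a)) (b : B) :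
    X.conj (phi.symm b) = phi.symm (Y.conj b) := by
  rw [LinearEquiv.eq_symm_apply, hc, LinearEquiv.apply_symm_apply]

theorem tr_bar (hc : ∀ a, phi (X.conj a) = Y.conj (phi a)) (y : B) (v : A) :
    X.conj (tr phi y (X.conj v)) = tr phi (Y.conj y) v := by
  rw [tr_apply, conj_symm hc, map_mul, hc, Y.conj_conj, tr_apply]

theorem tr_tr (y y' : B) (v : A) : tr phi y (tr phi y' v) = tr phi (y * y') v := by
  rw [tr_apply, tr_apply, LinearEquiv.apply_symm_apply, ← mul_assoc, tr_apply]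

theorem tr_zero {y : B} (h : tr phi y = 0) : y = 0 := by
  have h1 : tr phi y (phi.symm 1) = 0 := by rw [h]; rfl
  rw [tr_apply, LinearEquiv.apply_symm_apply, mul_one] at h1
  exact phi.symm.map_eq_zero_iff.1 h1

theorem evalE_inj (h : IsHochschildIso P Q phi) (hE : Eval P) (h1 : KerOne P) (h2 : KerTwo P)
    {k : ℕ} (hk : k = 1 ∨ k = 2) {y : B} (hy : y ∈ Y.H 0 k) (h0 : evalE X phi y = 0) : y = 0 := by
  obtain ⟨-, h4⟩ := evalE_spec h hE hy
  rw [h0, zero_mul, map_zero] at h4
  have h5 : tr phi y (X.expo I) = 0 := by rw [tr_apply, h4, map_zero]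
  have h6 := Y.comm 0 k k 0 _ _ hy (Y.conj_mem _ _ _ hy)
  rw [zero_add, add_zero] at h6
  apply tr_zero (phi := phi)
  rcases hk with rfl | rfl
  · refine h1 _ (tr_mem h hy) (fun v => ?_) h5
    rw [tr_bar h.conj, tr_bar h.conj, tr_tr, tr_tr, h6]
    simp [tr_apply]
  · refine h2 _ (tr_mem h hy) (fun v => ?_) h5
    rw [tr_bar h.conj, tr_bar h.conj, tr_tr, tr_tr, h6]
    norm_num

variable [FiniteDimensional ℂ A] [FiniteDimensional ℂ B]

omit [FiniteDimensional ℂ A] [FiniteDimensional ℂ B] in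
theorem finrank_map_inj {S : Submodule ℂ B} (f : B →ₗ[ℂ] A) (h : ∀ y ∈ S, f y = 0 → y = 0) :
    finrank ℂ (S.map f) = finrank ℂ S := by
  rw [← LinearMap.range_domRestrict]
  apply LinearMap.finrank_range_of_inj
  rw [← LinearMap.ker_eq_bot, LinearMap.ker_eq_bot']
  intro y hy
  exact Subtype.ext (h y.1 y.2 hy)

theorem finrank_le_eval (h : IsHochschildIso P Q phi) (hE : Eval P) {k : ℕ}
    (hinj : ∀ y ∈ Y.H 0 k, evalE X phi y = 0 → y = 0) : Y.h 0 k ≤ X.h 0 k := by
  have h1 : ((Y.H 0 k).map (evalE X phi)) ≤ X.H 0 k := by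
    rintro _ ⟨y, hy, rfl⟩
    exact (evalE_spec h hE hy).1
  have h2 : finrank ℂ ((Y.H 0 k).map (evalE X phi)) = finrank ℂ (Y.H 0 k) :=
    finrank_map_inj _ hinj
  unfold HodgeRing.h
  rw [← h2]
  exact Submodule.finrank_mono h1

/-- `h^{0,1}` and `h^{0,2}` are invariants -/
theorem h_eq (h : IsHochschildIso P Q phi) (hE : Eval P) (h1 : KerOne P) (h2 : KerTwo P)
    (hE' : Eval Q) (h1' : KerOne Q) (h2' : KerTwo Q) {k : ℕ} (hk : k = 1 ∨ k = 2) :
    X.h 0 k = Y.h 0 k :=
  le_antisymm (finrank_le_eval h.symm hE' fun _ hy h0 => evalE_inj h.symm hE' h1' h2' hk hy h0)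
    (finrank_le_eval h hE fun _ hy h0 => evalE_inj h hE h1 h2 hk hy h0)

theorem evalE_surj (h : IsHochschildIso P Q phi) (hE : Eval P) (h1 : KerOne P) (h2 : KerTwo P)
    (hE' : Eval Q) (h1' : KerOne Q) (h2' : KerTwo Q) {k : ℕ} (hk : k = 1 ∨ k = 2) {x : A}
    (hx : x ∈ X.H 0 k) : ∃ y ∈ Y.H 0 k, evalE X phi y = x := by
  have h3 : ((Y.H 0 k).map (evalE X phi)) ≤ X.H 0 k := by
    rintro _ ⟨y, hy, rfl⟩
    exact (evalE_spec h hE hy).1
  have h4 : finrank ℂ ((Y.H 0 k).map (evalE X phi)) = finrank ℂ (Y.H 0 k) :=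
    finrank_map_inj _ fun y hy hk' => evalE_inj h hE h1 h2 hk hy hk'
  have h5 := h_eq h hE h1 h2 hE' h1' h2' hk
  have h6 := Submodule.eq_of_le_of_finrank_eq h3 (h4.trans h5.symm)
  rw [← h6] at hx
  exact hx

theorem word_surj (h : IsHochschildIso P Q phi) (hE : Eval P) (h1 : KerOne P) (h2 : KerTwo P)
    (hE' : Eval Q) (h1' : KerOne Q) (h2' : KerTwo Q) {l : ℕ} {w : A} (hw : X.Word l w) :
    ∃ w', Y.Word l w' ∧ evalE X phi w' = w := by
  induction hw with
  | one => exact ⟨1, HodgeRing.Word.one, evalE_one⟩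
  | mul k l x w hk hx _ ih =>
    obtain ⟨w', hw', e⟩ := ih
    obtain ⟨y, hy, e'⟩ := evalE_surj h hE h1 h2 hE' h1' h2' hk hx
    refine ⟨y * w', HodgeRing.Word.mul k l y w' hk hy hw', ?_⟩
    rw [evalE_mul h hE hy (Y.word_mem hw'), e, e']

theorem lowPart_surj (h : IsHochschildIso P Q phi) (hE : Eval P) (h1 : KerOne P) (h2 : KerTwo P)
    (hE' : Eval Q) (h1' : KerOne Q) (h2' : KerTwo Q) (q : ℕ) :
    X.lowPart q ≤ (Y.lowPart q).map (evalE X phi) := by
  rw [X.lowPart_eq, Submodule.span_le]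
  intro w hw
  obtain ⟨w', hw', e⟩ := word_surj h hE h1 h2 hE' h1' h2' hw
  refine ⟨w', ?_, e⟩
  rw [Y.lowPart_eq]
  exact Submodule.subset_span hw'

/-- Theorem A: the dimensions of the subalgebra generated by degrees one and two -/
theorem lowPart_finrank (h : IsHochschildIso P Q phi) (hE : Eval P) (h1 : KerOne P)
    (h2 : KerTwo P) (hE' : Eval Q) (h1' : KerOne Q) (h2' : KerTwo Q) (q : ℕ) :
    finrank ℂ (X.lowPart q) = finrank ℂ (Y.lowPart q) := by
  apply le_antisymm
  · exact (Submodule.finrank_mono (lowPart_surj h hE h1 h2 hE' h1' h2' q)).trans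
      (Submodule.finrank_map_le _ _)
  · exact (Submodule.finrank_mono (lowPart_surj h.symm hE' h1' h2' hE h1 h2 q)).trans
      (Submodule.finrank_map_le _ _)

/-! ### Theorem B -/

omit [FiniteDimensional ℂ A] [FiniteDimensional ℂ B] in
theorem expo_column (X : HodgeRing n A) (z : ℂ) : X.expo z ∈ X.column 0 := by
  unfold HodgeRing.expo
  refine Submodule.sum_mem _ fun j _ => Submodule.smul_mem _ _ ?_
  have h1 : X.omega ^ j ∈ X.H j j := by
    have := X.pow_mem X.omega_mem X.one_mem j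
    rwa [mul_one, zero_add] at this
  exact X.mem_column (by simp) h1

omit [FiniteDimensional ℂ A] [FiniteDimensional ℂ B] in
theorem proj_mul {k : ℕ} {y v : B} (hy : y ∈ Y.H 0 k) (hv : v ∈ Y.column 0) :
    Y.proj 0 k (y * v) = y * Y.proj 0 0 v := by
  refine Y.column_induct (P := fun v => Y.proj 0 k (y * v) = y * Y.proj 0 0 v)
    (fun p q hpq v hv => ?_) (by simp) (fun a b ha hb => by
      rw [mul_add, map_add, map_add, mul_add, ha, hb]) hv
  have h1 := Y.mul_mem _ _ _ _ _ _ hy hv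
  have hpq' : p = q := by omega
  subst hpq'
  rw [Y.proj_of_mem 0 k h1, Y.proj_of_mem 0 0 hv]
  by_cases hp : p = 0
  · subst hp
    rw [if_pos (by simp), if_pos rfl]
  · rw [if_neg (by intro h; exact hp (by simpa using (Prod.ext_iff.1 h).1)),
      if_neg (by intro h; exact hp (Prod.ext_iff.1 h).1), mul_zero]

omit [FiniteDimensional ℂ A] [FiniteDimensional ℂ B] in
theorem mul_low {q : ℕ} (hq : n ≤ q + 1) {y v : B} (hy : y ∈ Y.H 0 q) (hv : v ∈ Y.column 0)
    (h0 : Y.proj 0 0 v = 0) : y * v ∈ Y.H 1 (q + 1) := by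
  have key : y * v - y * Y.proj 0 0 v ∈ Y.H 1 (q + 1) := by
    refine Y.column_induct (P := fun v => y * v - y * Y.proj 0 0 v ∈ Y.H 1 (q + 1))
      (fun p p' hpp v hv => ?_) (by simp) (fun a b ha hb => by
        rw [mul_add, map_add, mul_add, add_sub_add_comm]
        exact Submodule.add_mem _ ha hb) hv
    have h1 := Y.mul_mem _ _ _ _ _ _ hy hv
    have hpp' : p = p' := by omega
    subst hpp'
    rw [Y.proj_of_mem 0 0 hv]
    by_cases hp : p = 0
    · subst hp
      rw [if_pos rfl, sub_self]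
      exact Submodule.zero_mem _
    · rw [if_neg (by intro h; exact hp (Prod.ext_iff.1 h).1), mul_zero, sub_zero]
      by_cases hp1 : p = 1
      · subst hp1
        rwa [zero_add] at h1
      · rw [Y.bounded _ _ (Or.inr (by omega : n < q + p)), Submodule.mem_bot] at h1
        rw [h1]
        exact Submodule.zero_mem _
  rwa [h0, mul_zero, sub_zero] at key

omit [FiniteDimensional ℂ A] [FiniteDimensional ℂ B] in
/-- a truncated exponential acts on `H^{n-1,n-1}` through its first two terms -/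
theorem trunc {q : ℕ} (hq : q + 1 = n) (c : ℕ → ℂ) (hc : c 0 = 1) {D m : A} (hD : D ∈ X.H 1 1)
    (hm : m ∈ X.H q q) :
    (∑ j ∈ Finset.range (n + 1), c j • D ^ j) * m = m + c 1 • (D * m) := by
  have h1 : ∑ j ∈ Finset.range 2, (c j • D ^ j) * m =
      ∑ j ∈ Finset.range (n + 1), (c j • D ^ j) * m := by
    refine Finset.sum_subset (Finset.range_subset_range.2 (by omega)) fun j _ hj => ?_
    rw [Finset.mem_range, not_lt] at hj
    have h2 := X.pow_mem hD hm j
    rw [X.bounded _ _ (Or.inl (by omega : n < q + j)), Submodule.mem_bot] at h2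
    rw [smul_mul_assoc, h2, smul_zero]
  rw [Finset.sum_mul, ← h1, Finset.sum_range_succ, Finset.sum_range_one, hc]
  simp

omit [FiniteDimensional ℂ A] [FiniteDimensional ℂ B] in
theorem trunc' (c : ℕ → ℂ) (hc : c 0 = 1) {D m : A} (hD : D ∈ X.H 1 1)
    (hm : m ∈ X.H n n) : (∑ j ∈ Finset.range (n + 1), c j • D ^ j) * m = m := by
  rw [Finset.sum_mul, Finset.sum_eq_single 0]
  · rw [hc]; simp
  · intro j _ hj
    have h2 := X.pow_mem hD hm j
    rw [X.bounded _ _ (Or.inl (by omega : n < n + j)), Submodule.mem_bot] at h2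
    rw [smul_mul_assoc, h2, smul_zero]
  · intro h
    simp at h

omit [FiniteDimensional ℂ A] [FiniteDimensional ℂ B] in
theorem mukai_expo {q : ℕ} {x : A} (hx : x ∈ X.H 0 q) :
    X.mukai (x * X.expo I) (X.conj (x * X.expo I)) =
      I ^ q * X.int (X.expHalfC1 * (X.expo (-2 * I) * (x * X.conj x))) := by
  rw [X.expo_central, HodgeRing.mukai, X.dual_expo, X.conj_expo_mul, Complex.conj_I,
    X.dual_of_mem hx, zero_add, mul_smul_comm, mul_smul_comm, smul_mul_assoc, map_smul,
    smul_eq_mul]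
  congr 2
  have h1 : X.expo (-2 * I) = X.expo (-I) * X.expo (-I) := by
    rw [X.expo_mul]
    congr 1
    ring
  rw [h1]
  simp only [mul_assoc]
  rw [← mul_assoc x, X.expo_central (-I) x, mul_assoc]

omit [FiniteDimensional ℂ A] [FiniteDimensional ℂ B] in
theorem mukai_ne {q : ℕ} (hq : q + 1 = n) {x : A} (hx : x ∈ X.H 0 q) (h0 : x ≠ 0) :
    X.mukai (x * X.expo I) (X.conj (x * X.expo I)) ≠ 0 := by
  have hcx := X.conj_mem _ _ _ hx
  have hm : x * X.conj x ∈ X.H q q := by
    have := X.mul_mem _ _ _ _ _ _ hx hcx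
    rwa [zero_add, add_zero] at this
  set m : A := x * X.conj x with hmdef
  have hwm : X.omega * m ∈ X.H n n := by
    have := X.mul_mem _ _ _ _ _ _ X.omega_mem hm
    rwa [show 1 + q = n by omega] at this
  have hcm : X.c1 * m ∈ X.H n n := by
    have := X.mul_mem _ _ _ _ _ _ X.c1_mem hm
    rwa [show 1 + q = n by omega] at this
  have e1 : X.expo (-2 * I) * m = m + (-2 * I) • (X.omega * m) := by
    unfold HodgeRing.expo
    rw [trunc hq (fun j => (-2 * I) ^ j * ((j.factorial : ℕ) : ℂ)⁻¹) (by simp) X.omega_mem hm]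
    simp
  have e2 : X.expHalfC1 * m = m + (1 / 2 : ℂ) • (X.c1 * m) := by
    unfold HodgeRing.expHalfC1
    rw [trunc hq (fun j => ((2 ^ j * j.factorial : ℕ) : ℂ)⁻¹) (by simp) X.c1_mem hm]
    norm_num
  have e3 : X.expHalfC1 * (X.omega * m) = X.omega * m := by
    unfold HodgeRing.expHalfC1
    exact trunc' (fun j => ((2 ^ j * j.factorial : ℕ) : ℂ)⁻¹) (by simp) X.c1_mem hwm
  have e4 : X.int m = 0 := X.int_off _ _ _ hm (by
    intro h
    have := (Prod.ext_iff.1 h).1
    simp only at this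
    omega)
  rw [mukai_expo hx, ← hmdef, e1, mul_add, mul_smul_comm, e2, e3, map_add, map_add, map_smul,
    map_smul, e4, zero_add, smul_eq_mul, smul_eq_mul]
  -- reality
  have hflip : X.conj x * x = (-1 : ℂ) ^ (q * q) • m := by
    have := X.comm q 0 0 q _ _ hcx hx
    rwa [add_zero, zero_add] at this
  have hre : ∀ D : A, D ∈ X.H 1 1 → X.conj D = D →
      (starRingEnd ℂ) (X.int (D * m)) = (-1 : ℂ) ^ (q * q) * X.int (D * m) := by
    intro D hD hDr
    rw [← X.int_conj, map_mul X.conj, hDr]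
    have h5 : X.conj m = (-1 : ℂ) ^ (q * q) • m := by
      rw [← hflip, hmdef, map_mul X.conj, X.conj_conj]
    rw [h5, mul_smul_comm, map_smul, smul_eq_mul]
  have r1 := hre _ X.c1_mem X.c1_real
  have r2 := hre _ X.omega_mem X.omega_real
  -- Hodge-Riemann
  have hb : X.int (X.omega * m) ≠ 0 := by
    obtain ⟨r, hr, he⟩ := X.hodgeRiemann 0 q x hx (by omega) (by
      have h2 := X.pow_mem X.omega_mem hx (n - (0 + q) + 1)
      rw [X.bounded _ _ (Or.inr (by omega : n < q + (n - (0 + q) + 1))), Submodule.mem_bot] at h2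
      exact h2) h0
    rw [show n - (0 + q) = 1 by omega, pow_one, mul_assoc X.omega] at he
    intro hzero
    rw [← hmdef, hzero, mul_zero] at he
    exact hr.ne' (by exact_mod_cast he.symm)
  set a : ℂ := X.int (X.c1 * m) with ha
  set b : ℂ := X.int (X.omega * m) with hbdef
  have hI : (I : ℂ) ^ q ≠ 0 := pow_ne_zero _ I_ne_zero
  apply mul_ne_zero hI
  intro hzero
  have hε : ((-1 : ℂ) ^ (q * q)) ≠ 0 := pow_ne_zero _ (by norm_num)
  have h2 := congrArg (starRingEnd ℂ) hzero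
  rw [map_add, map_mul, map_mul, map_zero, r1, r2] at h2
  have h3 : (starRingEnd ℂ) (1 / 2 : ℂ) = 1 / 2 := by
    rw [map_div₀, map_one, map_ofNat]
  have h4 : (starRingEnd ℂ) (-2 * I) = 2 * I := by
    rw [map_mul, Complex.conj_I, map_neg, map_ofNat]
    ring
  rw [h3, h4] at h2
  have h5 : (-1 : ℂ) ^ (q * q) * (1 / 2 * a + 2 * I * b) = 0 := by
    linear_combination h2
  have h6 := (mul_eq_zero.1 h5).resolve_left hε
  have h7 : (4 * I) * b = 0 := by linear_combination h6 - hzero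
  have h8 : (4 * I : ℂ) ≠ 0 := mul_ne_zero (by norm_num) I_ne_zero
  exact hb ((mul_eq_zero.1 h7).resolve_left h8)

omit [FiniteDimensional ℂ A] [FiniteDimensional ℂ B] in
/-- the rank of the image of `exp (i omega)` does not vanish -/
theorem rank_ne (h : IsHochschildIso P Q phi) (hM : IsMukaiIsometry X Y phi) (hE : Eval P)
    {q : ℕ} (hq : n ≤ q + 1) {y : B} (hy : y ∈ Y.H 0 q) (hne : evalE X phi y ≠ 0) :
    Y.proj 0 0 (phi (X.expo I)) ≠ 0 := by
  intro h0
  obtain ⟨h1, h2⟩ := evalE_spec h hE hy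
  have hcol : phi (X.expo I) ∈ Y.column 0 := by
    rw [← hM.column 0]
    exact Submodule.mem_map_of_mem (expo_column X I)
  have h3 := mul_low hq hy hcol h0
  by_cases hqn : q + 1 = n
  · apply mukai_ne hqn h1 hne
    rw [← hM.mukai, hM.conj, ← h2]
    exact Y.mukai_eq_zero h3 (Y.conj_mem _ _ _ h3) (by omega)
  · rw [Y.bounded _ _ (Or.inr (by omega : n < q + 1)), Submodule.mem_bot, h2] at h3
    have h4 : evalE X phi y * X.expo I = 0 := phi.map_eq_zero_iff.1 h3
    apply hne
    rw [← expo_cancel (X := X) (evalE X phi y), h4, zero_mul]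

theorem h_le_of_rank (h : IsHochschildIso P Q phi) (hM : IsMukaiIsometry X Y phi) (hE : Eval P)
    (hr : Y.proj 0 0 (phi (X.expo I)) ≠ 0) (k : ℕ) : Y.h 0 k ≤ X.h 0 k := by
  apply finrank_le_eval h hE
  intro y hy h0
  obtain ⟨h1, h2⟩ := evalE_spec h hE hy
  have hcol : phi (X.expo I) ∈ Y.column 0 := by
    rw [← hM.column 0]
    exact Submodule.mem_map_of_mem (expo_column X I)
  rw [h0, zero_mul, map_zero] at h2
  have h3 := proj_mul hy hcol
  rw [h2, map_zero] at h3
  -- the component is a multiple of one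
  have h4 : Y.proj 0 0 (phi (X.expo I)) ∈ Y.H 0 0 := by
    have : ∀ b : B, Y.proj 0 0 b ∈ Y.H 0 0 := by
      refine Y.induct (P := fun b => Y.proj 0 0 b ∈ Y.H 0 0) (fun p q a ha => ?_) (by simp)
        (fun a b ha hb => by rw [map_add]; exact Submodule.add_mem _ ha hb)
      rw [Y.proj_of_mem 0 0 ha]
      split_ifs with hpq
      · have e1 := (Prod.ext_iff.1 hpq).1
        have e2 := (Prod.ext_iff.1 hpq).2
        simp only at e1 e2
        subst e1 e2
        exact ha
      · exact Submodule.zero_mem _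
    exact this _
  have hone : (1 : B) ≠ 0 := by
    intro h1'
    apply hr
    have : ∀ b : B, b = 0 := fun b => by rw [← one_mul b, h1', zero_mul]
    exact this _
  obtain ⟨c, hc⟩ : ∃ c : ℂ, Y.proj 0 0 (phi (X.expo I)) = c • (1 : B) := by
    have h5 := (finrank_eq_one_iff_of_nonzero' (⟨1, Y.one_mem⟩ : Y.H 0 0) (by
      intro h6
      exact hone (congrArg Subtype.val h6))).1 Y.connected ⟨_, h4⟩
    obtain ⟨c, hc⟩ := h5
    exact ⟨c, (congrArg Subtype.val hc).symm⟩
  rw [hc, mul_smul_comm, mul_one] at h3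
  rcases smul_eq_zero.1 h3.symm with h6 | h6
  · exfalso
    apply hr
    rw [hc, h6, zero_smul]
  · exact h6

/-- Theorem B: if the subalgebra generated by degrees one and two reaches degree `n - 1`, all
`h^{0,k}` are invariants -/
theorem h_eq_of_lowPart (h : IsHochschildIso P Q phi) (hM : IsMukaiIsometry X Y phi)
    (hE : Eval P) (h1 : KerOne P) (h2 : KerTwo P) (hE' : Eval Q) (h1' : KerOne Q) (h2' : KerTwo Q)
    {q : ℕ} (hq : n ≤ q + 1) (hne : X.lowPart q ≠ ⊥) (k : ℕ) : X.h 0 k = Y.h 0 k := by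
  have hne' : Y.lowPart q ≠ ⊥ := by
    intro h0
    have h3 := lowPart_finrank h hE h1 h2 hE' h1' h2' q
    rw [h0, finrank_bot] at h3
    exact hne (Submodule.finrank_eq_zero.1 h3)
  apply le_antisymm
  · obtain ⟨y, hy, hy0⟩ := (Submodule.ne_bot_iff _).1 hne'
    obtain ⟨x, hx, hxy⟩ := lowPart_surj h.symm hE' h1' h2' hE h1 h2 q hy
    apply h_le_of_rank h.symm hM.symm hE'
    apply rank_ne h.symm hM.symm hE' hq hx.2
    rw [hxy]
    exact hy0
  · obtain ⟨x, hx, hx0⟩ := (Submodule.ne_bot_iff _).1 hne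
    obtain ⟨y, hy, hxy⟩ := lowPart_surj h hE h1 h2 hE' h1' h2' q hx
    apply h_le_of_rank h hM hE
    apply rank_ne h hM hE hq hy.2
    rw [hxy]
    exact hx0

end eval

end Pool.Agent.Hodge81
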